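import Pool.Agent.Q140.Arcs.Final

/-!
# A covering of the plane by analytic arcs which is not smooth on a set of positive measure
-/

open MeasureTheory
open scoped ContDiff

namespace Pool.Agent.Results.MP_85e89d_gt.NotSmoothAE

open Pool.Agent.Q140.Arcs

/-- There is a covering of the plane by non-overlapping differentiable rectifiable arcs of length
at least `1` which fails to be smooth on a set of positive measure.  Moreover all arcs are
(restrictions of) real-analytic curves with nonvanishing derivative, and the failure does not come
from endpoints: the points considered have neighbourhoods without endpoints, but in every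
neighbourhood there are tangent lines whose directions differ by at least `1/2`. -/
theorem result : ∃ F : Set (Set ℂ), IsCovering F 1 ∧
    (∀ A ∈ F, ∃ I γ, Param A I γ ∧ ContDiff ℝ ω γ ∧ ∀ t, deriv γ t ≠ 0) ∧
    0 < volume {z : ℂ | ¬ SmoothAt F z ∧ (∃ N, IsOpen N ∧ z ∈ N ∧ NoEndpoint F N) ∧
      ∀ N, IsOpen N → z ∈ N → ¬ DirectionsClose F N (1 / 2)} := by
  obtain ⟨F, h1, h2, h3⟩ := main
  refine ⟨F, h1, h2, lt_of_lt_of_le h3 (measure_mono ?_)⟩
  rintro z ⟨hz1, hz2⟩
  exact ⟨not_smooth hz2, hz1, hz2⟩

end Pool.Agent.Results.MP_85e89d_gt.NotSmoothAE
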